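import Pool.Agent.N741.HB.Stm
import Pool.Agent.Y884.GN.A

/-!
# The determinant method with a further function of large size

Project HB of helper741, part HB/3 (statement `S_det` of `Pool.Agent.N741.HB.Stm`), by helper27.
The proof follows `Pool.Agent.Y884.GN.A`.
-/

set_option autoImplicit false

namespace Pool.Agent.N27.HB

open Finset MvPolynomial Pool.Agent.Y902.FB Pool.Agent.Y902.GN Pool.Agent.Y884.GN

/-- the numerical condition -/
theorem num' {d k I m ρ : ℕ} (hI : I = 2 ^ (d + 1) * (k * d + 3) ^ d) (hm : 1 ≤ m)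
    (hρ : ρ = (k * d + 1) * m + 2) : (2 * ρ) ^ (d + 1) ≤ ρ * (m ^ d * I) := by
  have h1 : ρ ≤ (k * d + 3) * m := by
    rw [hρ]
    nlinarith [Nat.zero_le (k * d), Nat.zero_le m]
  have h2 : (2 * ρ) ^ d ≤ (2 * ((k * d + 3) * m)) ^ d := Nat.pow_le_pow_left (by omega) _
  calc (2 * ρ) ^ (d + 1) = ρ * (2 * (2 * ρ) ^ d) := by rw [pow_succ]; ring
    _ ≤ ρ * (2 * (2 * ((k * d + 3) * m)) ^ d) := by gcongr
    _ = ρ * (m ^ d * I) := by
        rw [hI, mul_pow, mul_pow, pow_succ]
        ring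

/-- the point with the value of the further function -/
def pt {d : ℕ} (x : Option (Fin d) → ℤ) (z : ℤ) : Option (Option (Fin d)) → ℤ := fun o => o.elim z x

/-- the second equation -/
noncomputable def eq2 {d : ℕ} (A F : MvPolynomial (Option (Fin d)) ℤ) (r : ℕ) :
    MvPolynomial (Option (Option (Fin d))) ℤ :=
  rename some A * X none ^ r - rename some F

theorem eval_rs {d : ℕ} (x : Option (Fin d) → ℤ) (z : ℤ) (H : MvPolynomial (Option (Fin d)) ℤ) :
    eval (pt x z) (rename some H) = eval x H := by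
  rw [eval_rename]
  congr 1

theorem eval_eq2 {d : ℕ} (A F : MvPolynomial (Option (Fin d)) ℤ) (r : ℕ)
    (x : Option (Fin d) → ℤ) (z : ℤ) :
    eval (pt x z) (eq2 A F r) = eval x A * z ^ r - eval x F := by
  simp only [eq2, map_sub, map_mul, map_pow, eval_rs, eval_X]
  rfl

theorem pd_none {d : ℕ} (H : MvPolynomial (Option (Fin d)) ℤ) :
    pderiv (none : Option (Option (Fin d))) (rename some H) = 0 := by
  apply pderiv_eq_zero_of_notMem_vars
  intro h
  have := vars_rename some H h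
  simp at this

theorem minor_val {d : ℕ} (H A F : MvPolynomial (Option (Fin d)) ℤ) (r : ℕ)
    (x : Option (Fin d) → ℤ) (z : ℤ) :
    eval (pt x z) (pderiv (some none) (rename some H)) * eval (pt x z) (pderiv none (eq2 A F r)) -
      eval (pt x z) (pderiv none (rename some H)) * eval (pt x z) (pderiv (some none) (eq2 A F r)) =
    eval x (pderiv none H) * (eval x A * ((r : ℤ) * z ^ (r - 1))) := by
  rw [pd_none, map_zero, zero_mul, sub_zero]
  have h1 : pderiv (some none) (rename some H) = rename some (pderiv (none : Option (Fin d)) H) :=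
    (pderiv_rename (Option.some_injective _) none H)
  rw [h1, eval_rs]
  congr 1
  rw [eq2, map_sub, pd_none, sub_zero, Derivation.leibniz, pd_none, Derivation.leibniz_pow,
    pderiv_X_self]
  simp only [smul_eq_mul, mul_zero, add_zero, mul_one, map_mul, map_pow, eval_X,
    eval_rs, nsmul_eq_mul]
  simp [pt]

/-- one residue class -/
theorem cls' {d k X Y W r I ρ q : ℕ} (hI : I = 2 ^ (d + 1) * (k * d + 3) ^ d)
    (hρ : ρ = (k * d + 1) * (I * W) + 2) (hX : I * (I * W) ^ d ≤ X) (hW : 1 ≤ W)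
    (hX1 : 2 ≤ X) (hY : 1 ≤ Y) (hYX : Y ≤ X ^ k) (hq : q.Prime)
    (hXq : X ≤ q) (H A F : MvPolynomial (Option (Fin d)) ℤ)
    (x₀ : Option (Fin d) → ℤ) (z₀ : ℤ) (Ω : Set (Option (Option (Fin d)) → ℤ))
    (hP : ¬ (q : ℤ) ∣ eval x₀ (pderiv none H * A) * ((r : ℤ) * z₀))
    (hΩP : ∀ t ∈ Ω, ∀ i, (q : ℤ) ∣ t i - pt x₀ z₀ i)
    (hΩ : ∀ t ∈ Ω, eval t (rename some H) = 0 ∧ eval t (eq2 A F r) = 0 ∧
      (∀ b, |t (some (some b))| ≤ (Y : ℤ)) ∧ |t none| ≤ (X : ℤ) ^ W) :
    ∃ c : (Fin d → Fin (I * W)) × Fin I → ℤ, c ≠ 0 ∧ (∀ e, |c e| ≤ ((q ^ ρ : ℕ) : ℤ)) ∧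
      ∀ t ∈ Ω, ∑ e, c e * ((∏ b, t (some (some b)) ^ (e.1 b : ℕ)) * t none ^ (e.2 : ℕ)) = 0 := by
  have hq2 : 2 ≤ q := hq.two_le
  have hI1 : 1 ≤ I := by
    rw [hI]
    exact Nat.one_le_iff_ne_zero.2 (by positivity)
  have hm : 1 ≤ I * W := Nat.one_le_iff_ne_zero.2 (by positivity)
  obtain ⟨p, hp⟩ := minor hq (rename some H) (eq2 A F r) (pt x₀ z₀) (a := some none) (c := none)
    (by simp) (fun b : Fin d => some (some b))
    (by
      intro x hx
      rcases x with _ | _ | x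
      · exact Or.inr rfl
      · exact Or.inl rfl
      · exact absurd ⟨x, rfl⟩ hx)
    (by intro y; simp) (by intro y; simp)
    (by
      intro h
      rw [minor_val] at h
      apply hP
      rw [map_mul]
      have hpr : Prime (q : ℤ) := Nat.prime_iff_prime_int.1 hq
      rcases hpr.dvd_mul.1 h with h | h
      · exact (h.mul_right _).mul_right _
      rcases hpr.dvd_mul.1 h with h | h
      · exact (h.mul_left _).mul_right _
      rcases hpr.dvd_mul.1 h with h | h
      · exact (h.mul_right _).mul_left _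
      · exact ((hpr.dvd_of_dvd_pow h).mul_left _).mul_left _) (2 * ρ)
  have hcM : Fintype.card ((Fin d → Fin (I * W)) × Fin I) = (I * W) ^ d * I := by
    rw [Fintype.card_prod, Fintype.card_fun, Fintype.card_fin, Fintype.card_fin, Fintype.card_fin]
  have : Nonempty ((Fin d → Fin (I * W)) × Fin I) :=
    ⟨(fun _ => ⟨0, by omega⟩, ⟨0, by omega⟩)⟩
  obtain ⟨c, hc0, hc1, hc2⟩ := vanish (M := (Fin d → Fin (I * W)) × Fin I) q ρ
    (X ^ ((k * d + 1) * (I * W))) hq2 (pt x₀ z₀)
    (fun b : Fin d => some (some b)) p Ω hΩP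
    (fun t ht => hp t (hΩP t ht) (hΩ t ht).1 (hΩ t ht).2.1)
    (fun e => (∏ b, MvPolynomial.X (some (some b)) ^ (e.1 b : ℕ)) *
      MvPolynomial.X none ^ (e.2 : ℕ))
    (by
      rw [hcM, Fintype.card_fin]
      exact num' hI hm hρ)
    (fun t ht e => by
      obtain ⟨-, -, g1, g2⟩ := hΩ t ht
      rw [map_mul, map_prod, abs_mul, Finset.abs_prod]
      have e1 : ∏ b, |eval t (MvPolynomial.X (some (some b)) ^ (e.1 b : ℕ))| ≤
          ((X ^ (k * d * (I * W)) : ℕ) : ℤ) := by
        calc ∏ b, |eval t (MvPolynomial.X (some (some b)) ^ (e.1 b : ℕ))|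
            ≤ ∏ _b : Fin d, ((Y ^ (I * W) : ℕ) : ℤ) :=
              Finset.prod_le_prod (fun i _ => abs_nonneg _) fun b _ => by
                rw [map_pow, eval_X]
                exact abs_pow_le_pow (g1 b) hY (by have := (e.1 b).2; omega)
          _ = (((Y ^ (I * W)) ^ d : ℕ) : ℤ) := by
              rw [Finset.prod_const, Finset.card_univ, Fintype.card_fin]
              push_cast
              ring
          _ ≤ _ := by
              norm_cast
              calc (Y ^ (I * W)) ^ d ≤ ((X ^ k) ^ (I * W)) ^ d := by gcongr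
                _ = X ^ (k * d * (I * W)) := by
                    rw [← pow_mul, ← pow_mul]
                    congr 1
                    ring
      have e2 : |eval t (MvPolynomial.X none ^ (e.2 : ℕ))| ≤ ((X ^ (I * W) : ℕ) : ℤ) := by
        rw [map_pow, eval_X]
        have := abs_pow_le_pow (Y := X ^ W) (D := I) (x := t none) (by exact_mod_cast g2)
          (Nat.one_le_pow _ _ (by omega)) (by have := e.2.2; omega : (e.2 : ℕ) ≤ I)
        refine this.trans ?_
        norm_cast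
        rw [← pow_mul, mul_comm W I]
      calc _ ≤ ((X ^ (k * d * (I * W)) : ℕ) : ℤ) * ((X ^ (I * W) : ℕ) : ℤ) :=
            mul_le_mul e1 e2 (abs_nonneg _) (by positivity)
        _ = _ := by
            norm_cast
            rw [← pow_add]
            congr 1
            ring)
    (by
      rw [hcM, hρ]
      calc (I * W) ^ d * I * X ^ ((k * d + 1) * (I * W)) ≤ q * q ^ ((k * d + 1) * (I * W)) :=
            Nat.mul_le_mul ((by rw [mul_comm]; exact hX : (I * W) ^ d * I ≤ X).trans hXq)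
              (Nat.pow_le_pow_left hXq _)
        _ = q ^ ((k * d + 1) * (I * W) + 1) := by rw [pow_succ]; ring
        _ < q ^ ((k * d + 1) * (I * W) + 2) := Nat.pow_lt_pow_right (by omega) (by omega))
  refine ⟨c, hc0, hc1, fun t ht => ?_⟩
  have := hc2 t ht
  simpa only [map_prod, map_pow, eval_X, map_mul] using this

/-- **HB/3.** -/
theorem det : Pool.Agent.N741.HB.S_det := by
  intro d k
  obtain ⟨I, hI⟩ : ∃ I, I = 2 ^ (d + 1) * (k * d + 3) ^ d := ⟨_, rfl⟩
  have hI1 : 1 ≤ I := by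
    rw [hI]
    exact Nat.one_le_iff_ne_zero.2 (by positivity)
  refine ⟨I, 2 * (k * d + 3) * I, 1000000, hI1, ?_⟩
  intro X Y W r hX hY hYX hW _hr hIX H A F α T s z hT
  classical
  obtain ⟨ρ, hρ⟩ : ∃ ρ, ρ = (k * d + 1) * (I * W) + 2 := ⟨_, rfl⟩
  have hm : 1 ≤ I * W := Nat.one_le_iff_ne_zero.2 (by positivity)
  rcases T.eq_empty_or_nonempty with rfl | hne
  · refine ⟨∅, subset_rfl, by simp, fun _ _ => 1, ?_, fun e l => ?_, by simp⟩
    · intro h
      have := congrFun (congrFun h (fun _ => ⟨0, by omega⟩)) ⟨0, by omega⟩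
      simp at this
    · rw [abs_one]
      have : (1 : ℤ) ≤ (X : ℤ) := by exact_mod_cast (by omega : 1 ≤ X)
      exact one_le_pow₀ this
  obtain ⟨Q, hQ1, hQ2, hQ⟩ := Pool.Agent.Y902.FD.many_primes X hX
  have hex : ∀ t, ∃ q, t ∈ T → q ∈ Q ∧
      ¬ (q : ℤ) ∣ eval (s t) (pderiv none H * A) * ((r : ℤ) * z t) := by
    intro t
    by_cases ht : t ∈ T
    · obtain ⟨-, -, -, -, h1, h2⟩ := hT t ht
      obtain ⟨q, hq, h⟩ := exists_prime_not_dvd Q (fun q hq => (hQ q hq).1) X
        (fun q hq => (hQ q hq).2.1) _ h1 (lt_of_lt_of_le h2 (by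
          have g1 : (2 : ℤ) ^ X ≤ (X : ℤ) ^ X :=
            pow_le_pow_left₀ (by norm_num) (by exact_mod_cast (by omega : 2 ≤ X)) _
          have g2 : (X : ℤ) ^ X ≤ (X : ℤ) ^ Q.card :=
            pow_le_pow_right₀ (by exact_mod_cast (by omega : 1 ≤ X)) hQ1
          exact g1.trans g2))
      exact ⟨q, fun _ => ⟨hq, h⟩⟩
    · exact ⟨0, fun h => absurd h ht⟩
  choose qq hqq using hex
  have hX0 : 0 < X ^ 2 := by positivity
  set s' : α → Option (Option (Fin d)) → ℤ := fun t => pt (s t) (z t) with hs'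
  -- the classes
  let G : α → ℕ × (Option (Option (Fin d)) → Fin (X ^ 2)) := fun t =>
    (qq t, fun o => ⟨((s' t o) % (qq t : ℤ)).toNat % X ^ 2, Nat.mod_lt _ hX0⟩)
  obtain ⟨c0, hc0, hmax⟩ := Finset.exists_max_image (T.image G)
    (fun c => (T.filter fun t => G t = c).card) (hne.image G)
  have h1 := Finset.card_le_mul_card_image (f := G) T (T.filter fun t => G t = c0).card
    (fun b hb => hmax b hb)
  have h2 : (T.image G).card ≤ X ^ (2 * d + 7) := by
    have h3 : T.image G ⊆ Q ×ˢ (Finset.univ : Finset (Option (Option (Fin d)) → Fin (X ^ 2))) := by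
      intro c hc
      obtain ⟨t, ht, rfl⟩ := Finset.mem_image.1 hc
      exact Finset.mem_product.2 ⟨(hqq t ht).1, Finset.mem_univ _⟩
    refine (Finset.card_le_card h3).trans ?_
    rw [Finset.card_product, Finset.card_univ, Fintype.card_fun, Fintype.card_option,
      Fintype.card_option, Fintype.card_fin, Fintype.card_fin]
    calc Q.card * (X ^ 2) ^ (d + 1 + 1) ≤ X ^ 3 * (X ^ 2) ^ (d + 1 + 1) :=
          Nat.mul_le_mul_right _ hQ2
      _ = X ^ (2 * d + 7) := by
        rw [← pow_mul, ← pow_add]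
        congr 1
        ring
  refine ⟨T.filter fun t => G t = c0, Finset.filter_subset _ _, ?_, ?_⟩
  · refine h1.trans ?_
    rw [mul_comm]
    exact Nat.mul_le_mul_right _ h2
  obtain ⟨t0, ht0, rfl⟩ := Finset.mem_image.1 hc0
  obtain ⟨hq1, hq2⟩ := hqq t0 ht0
  obtain ⟨hq3, hq4, hq5⟩ := hQ _ hq1
  have hres : ∀ t ∈ T, G t = G t0 → ∀ i, (qq t0 : ℤ) ∣ s' t i - s' t0 i := by
    intro t ht hF i
    have e1 : qq t = qq t0 := congrArg Prod.fst hF
    have e2 := congrFun (congrArg Prod.snd hF) i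
    have e3 : ((s' t i) % (qq t : ℤ)).toNat % X ^ 2 = ((s' t0 i) % (qq t0 : ℤ)).toNat % X ^ 2 :=
      congrArg Fin.val e2
    rw [e1] at e3
    have hqpos : (0 : ℤ) < (qq t0 : ℤ) := by exact_mod_cast hq3.pos
    have hlt : ∀ x : ℤ, (x % (qq t0 : ℤ)).toNat < X ^ 2 := by
      intro x
      have g1 := Int.emod_lt_of_pos x hqpos
      have g2 := Int.emod_nonneg x hqpos.ne'
      omega
    rw [Nat.mod_eq_of_lt (hlt _), Nat.mod_eq_of_lt (hlt _)] at e3
    have g2 := Int.emod_nonneg (s' t i) hqpos.ne'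
    have g3 := Int.emod_nonneg (s' t0 i) hqpos.ne'
    have e4 : s' t i % (qq t0 : ℤ) = s' t0 i % (qq t0 : ℤ) := by omega
    exact (Int.ModEq.symm e4).dvd
  obtain ⟨c, hc1, hc2, hc3⟩ := cls' hI hρ hIX hW (by omega) hY hYX hq3 hq4 H A F (s t0) (z t0)
    (s' '' {t | t ∈ T ∧ G t = G t0}) hq2
    (by
      rintro _ ⟨t, ⟨ht1, ht2⟩, rfl⟩ i
      exact hres t ht1 ht2 i)
    (by
      rintro _ ⟨t, ⟨ht1, ht2⟩, rfl⟩
      obtain ⟨g1, g2, g3, g4, -⟩ := hT t ht1
      exact ⟨by rw [hs', eval_rs, g1], by rw [hs', eval_eq2, g2, sub_self], g3, g4⟩)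
  refine ⟨fun e l => c (e, l), ?_, fun e l => (hc2 (e, l)).trans ?_, fun t ht => ?_⟩
  · intro h
    apply hc1
    funext e
    exact congrFun (congrFun h e.1) e.2
  · have g1 : (qq t0) ^ ρ ≤ X ^ (2 * (k * d + 3) * I * W) := by
      calc (qq t0) ^ ρ ≤ (X ^ 2) ^ ρ := Nat.pow_le_pow_left hq5 _
        _ = X ^ (2 * ρ) := by rw [← pow_mul]
        _ ≤ _ := by
            apply Nat.pow_le_pow_right (by omega)
            rw [hρ]
            have : 2 * (k * d + 3) * I * W = 2 * ((k * d + 1) * (I * W) + 2 * (I * W)) := by ring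
            rw [this]
            omega
    exact_mod_cast g1
  · rw [Finset.mem_filter] at ht
    have := hc3 (s' t) ⟨t, ht, rfl⟩
    rw [Fintype.sum_prod_type] at this
    exact this

end Pool.Agent.N27.HB
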